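import Pool.Agent.helper17.TG.SW1
import Pool.Agent.helper35.MT.AN4

/-!
# Siegel-Walfisz, module sw:3a: lower bound for complex characters at all heights
-/

namespace Pool.Agent.helper74.TG

open Finset ArithmeticFunction Pool.Agent.helper39.MT

private lemma one_le_ll' {q : ℕ} (hq : 1 ≤ q) (s : ℂ) : 1 ≤ ll q s := by
  have h1 : 0 ≤ Real.log (q : ℝ) := Real.log_nonneg (by exact_mod_cast hq)
  have h2 : 0 ≤ Real.log (2 + |s.im|) := Real.log_nonneg (by linarith [abs_nonneg s.im])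
  unfold ll
  linarith

/-- sw:3a: complex characters. -/
theorem lower_complex_t : ∃ c : ℝ, 0 < c ∧ ∀ q : ℕ, 2 ≤ q → ∀ χ : DirichletCharacter ℂ q,
    χ ^ 2 ≠ 1 → ∀ s : ℂ, 1 < s.re → s.re ≤ 2 → c / ll q s ^ 7 ≤ ‖DD χ 0 s‖ := by
  obtain ⟨C₁', hC₁', h₁⟩ := DD_bound_t 0
  obtain ⟨C₂', hC₂', h₂⟩ := DD_lip_t
  set C₁ := max C₁' 1 with hC₁def
  set C₂ := max C₂' 1 with hC₂def
  have hC₁ : 1 ≤ C₁ := le_max_right _ _
  have hC₂ : 1 ≤ C₂ := le_max_right _ _
  have hC₁0 : 0 < C₁ := by linarith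
  have hC₂0 : 0 < C₂ := by linarith
  set c₀ := 1 / (256 * C₁ * C₂ ^ 4) with hc₀
  have hc₀0 : 0 < c₀ := by positivity
  have hc₀1 : c₀ ≤ 1 := by
    rw [hc₀, div_le_one (by positivity)]
    have : 1 ≤ C₂ ^ 4 := one_le_pow₀ hC₂
    nlinarith [mul_le_mul hC₁ this zero_le_one hC₁0.le]
  refine ⟨c₀, hc₀0, fun q hq χ hχ s hs1 hs2 => ?_⟩
  set ℓ := ll q s with hℓ
  have hℓ1 : 1 ≤ ℓ := one_le_ll' (by omega) s
  have hℓ0 : 0 < ℓ := by linarith
  have hχ1 : χ ≠ 1 := by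
    rintro rfl
    exact hχ (one_pow 2)
  set t := s.im with ht
  set x₀ := c₀ / ℓ ^ 9 with hx₀
  have hx₀0 : 0 < x₀ := by positivity
  have hx₀1 : x₀ ≤ 1 := by
    rw [hx₀, div_le_one (by positivity)]
    exact hc₀1.trans (one_le_pow₀ hℓ1)
  -- the lower bound to the right of `1 + x₀`
  have main : ∀ x : ℝ, x₀ ≤ x → x ≤ 1 →
      2 * C₂ * c₀ / ℓ ^ 7 ≤ ‖DD χ 0 (1 + (x : ℂ) + Complex.I * t)‖ := by
    intro x hxx₀ hx1
    have hx0 : 0 < x := by linarith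
    have hprod := DirichletCharacter.norm_LSeries_product_ge_one χ hx0 t
    simp only [norm_mul, norm_pow] at hprod
    have hre : ((1 : ℂ) + (x : ℂ)).re = 1 + x := by simp
    have ha : ‖LSeries (fun n : ℕ => ((1 : DirichletCharacter ℂ q) n : ℂ)) (1 + (x : ℂ))‖
        ≤ 2 / x₀ := by
      have h := h35_norm_L_le (1 : DirichletCharacter ℂ q) (s := 1 + (x : ℂ))
        (by rw [hre]; linarith)
      rw [hre, add_sub_cancel_left] at h
      refine h.trans ?_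
      have h3 : 1 / x ≤ 1 / x₀ := one_div_le_one_div_of_le hx₀0 hxx₀
      rw [show (2 : ℝ) / x₀ = 1 / x₀ + 1 / x₀ by ring]
      have : 1 ≤ 1 / x₀ := by
        rw [le_div_iff₀ hx₀0]; linarith
      linarith
    have hre2 : ((1 : ℂ) + (x : ℂ) + 2 * Complex.I * t).re = 1 + x := by simp
    have him2 : ((1 : ℂ) + (x : ℂ) + 2 * Complex.I * t).im = 2 * t := by simp
    have hb : ‖LSeries (fun n : ℕ => ((χ ^ 2 :) n : ℂ)) (1 + (x : ℂ) + 2 * Complex.I * t)‖
        ≤ C₁ * (2 * ℓ) := by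
      have h := h₁ q hq (χ ^ 2) hχ (1 + (x : ℂ) + 2 * Complex.I * t) (by rw [hre2]; linarith)
        (by rw [hre2]; linarith)
      rw [h35_DD_zero, zero_add, pow_one] at h
      refine h.trans ?_
      have h3 : ll q (1 + (x : ℂ) + 2 * Complex.I * t) ≤ 2 * ℓ := by
        rw [hℓ]
        unfold ll
        rw [him2, ← ht]
        have hq1 : 0 ≤ Real.log (q : ℝ) := Real.log_natCast_nonneg q
        have h4 : 2 + |2 * t| ≤ 2 * (2 + |t|) := by
          rw [abs_mul, abs_two]; linarith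
        have h5 : Real.log (2 + |2 * t|) ≤ Real.log 2 + Real.log (2 + |t|) := by
          rw [← Real.log_mul (by norm_num) (by positivity)]
          exact Real.log_le_log (by positivity) h4
        have h6 : Real.log 2 ≤ 1 := by
          have := Real.log_two_lt_d9
          linarith
        have h7 : 0 ≤ Real.log (2 + |t|) := Real.log_nonneg (by linarith [abs_nonneg t])
        linarith
      have h8 : 0 ≤ ll q (1 + (x : ℂ) + 2 * Complex.I * t) := by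
        linarith [one_le_ll' (by omega : 1 ≤ q) (1 + (x : ℂ) + 2 * Complex.I * t)]
      have h9 : C₁' ≤ C₁ := le_max_left _ _
      calc C₁' * ll q (1 + (x : ℂ) + 2 * Complex.I * t)
          ≤ C₁ * ll q (1 + (x : ℂ) + 2 * Complex.I * t) := by gcongr
        _ ≤ C₁ * (2 * ℓ) := by gcongr
    rw [h35_DD_zero]
    set y := ‖LSeries (fun n : ℕ => (χ n : ℂ)) (1 + (x : ℂ) + Complex.I * t)‖ with hy
    have hy0 : 0 ≤ y := norm_nonneg _
    by_contra hcon
    push Not at hcon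
    have h3 : ‖LSeries (fun n : ℕ => ((1 : DirichletCharacter ℂ q) n : ℂ)) (1 + (x : ℂ))‖ ^ 3 * y ^ 4
        * ‖LSeries (fun n : ℕ => ((χ ^ 2 :) n : ℂ)) (1 + (x : ℂ) + 2 * Complex.I * t)‖
        < (2 / x₀) ^ 3 * (2 * C₂ * c₀ / ℓ ^ 7) ^ 4 * (C₁ * (2 * ℓ)) := by
      have h4 : y ^ 4 < (2 * C₂ * c₀ / ℓ ^ 7) ^ 4 := pow_lt_pow_left₀ hcon hy0 (by norm_num)
      have h5 : ‖LSeries (fun n : ℕ => ((1 : DirichletCharacter ℂ q) n : ℂ)) (1 + (x : ℂ))‖ ^ 3
          ≤ (2 / x₀) ^ 3 := pow_le_pow_left₀ (norm_nonneg _) ha 3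
      calc ‖LSeries (fun n : ℕ => ((1 : DirichletCharacter ℂ q) n : ℂ)) (1 + (x : ℂ))‖ ^ 3 * y ^ 4
            * ‖LSeries (fun n : ℕ => ((χ ^ 2 :) n : ℂ)) (1 + (x : ℂ) + 2 * Complex.I * t)‖
          ≤ (2 / x₀) ^ 3 * y ^ 4 * (C₁ * (2 * ℓ)) := by
            apply mul_le_mul _ hb (norm_nonneg _) (by positivity)
            exact mul_le_mul_of_nonneg_right h5 (by positivity)
        _ < (2 / x₀) ^ 3 * (2 * C₂ * c₀ / ℓ ^ 7) ^ 4 * (C₁ * (2 * ℓ)) := by
            apply mul_lt_mul_of_pos_right _ (by positivity)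
            exact mul_lt_mul_of_pos_left h4 (by positivity)
    have h6 : (2 / x₀) ^ 3 * (2 * C₂ * c₀ / ℓ ^ 7) ^ 4 * (C₁ * (2 * ℓ)) = 1 := by
      rw [hx₀, hc₀]
      field_simp
      norm_num
    rw [h6] at h3
    exact absurd hprod (not_le.2 h3)
  have hs : s = 1 + ((s.re - 1 : ℝ) : ℂ) + Complex.I * t := by
    apply Complex.ext <;> simp [ht]
  have h8 : c₀ / ℓ ^ 7 ≤ C₂ * c₀ / ℓ ^ 7 := by
    apply div_le_div_of_nonneg_right _ (by positivity)
    nlinarith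
  have h9 : 2 * C₂ * c₀ / ℓ ^ 7 = C₂ * c₀ / ℓ ^ 7 + C₂ * c₀ / ℓ ^ 7 := by ring
  have h10 : 0 ≤ C₂ * c₀ / ℓ ^ 7 := by positivity
  rcases le_or_gt x₀ (s.re - 1) with hcase | hcase
  · have h := main (s.re - 1) hcase (by linarith)
    rw [← hs] at h
    linarith
  · -- Lipschitz
    set s' : ℂ := 1 + (x₀ : ℂ) + Complex.I * t with hs'
    have hre' : s'.re = 1 + x₀ := by simp [hs']
    have him' : s'.im = t := by simp [hs']
    have hlip := h₂ q hq χ hχ1 s s' hs1 hs2 (by rw [hre']; linarith) (by rw [hre']; linarith)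
      (by rw [him'])
    have hdiff : ‖s - s'‖ ≤ x₀ := by
      have : s - s' = ((s.re - 1 - x₀ : ℝ) : ℂ) := by
        apply Complex.ext
        · simp [hs']; ring
        · simp [hs', ht]
      rw [this, Complex.norm_real, Real.norm_eq_abs, abs_of_nonpos (by linarith)]
      linarith
    have hlip2 : ‖DD χ 0 s - DD χ 0 s'‖ ≤ C₂ * c₀ / ℓ ^ 7 := by
      refine hlip.trans ?_
      calc C₂' * ℓ ^ 2 * ‖s - s'‖ ≤ C₂ * ℓ ^ 2 * x₀ := by
            apply mul_le_mul _ hdiff (norm_nonneg _) (by positivity)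
            exact mul_le_mul_of_nonneg_right (le_max_left _ _) (by positivity)
        _ = C₂ * c₀ / ℓ ^ 7 := by
            rw [hx₀]; field_simp
    have h := main x₀ le_rfl hx₀1
    rw [← hs'] at h
    have h7 : ‖DD χ 0 s'‖ - ‖DD χ 0 s‖ ≤ ‖DD χ 0 s - DD χ 0 s'‖ := by
      rw [norm_sub_rev]; exact norm_sub_norm_le _ _
    linarith

end Pool.Agent.helper74.TG
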