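import Pool.Agent.helper74.TG.Defs
import Pool.Agent.helper95.MT.AN2

/-!
# Siegel-Walfisz, module sw:1: derivatives of `L(s, χ)` to the right of `1`, all heights
-/

namespace Pool.Agent.helper74.TG

open Finset ArithmeticFunction Pool.Agent.helper39.MT

private lemma norm_s_le {s : ℂ} (h1 : 1 < s.re) (h2 : s.re ≤ 2) : ‖s‖ ≤ 2 + |s.im| := by
  refine (Complex.norm_le_abs_re_add_abs_im s).trans ?_
  rw [abs_of_pos (by linarith)]
  linarith

private lemma f_lip (j : ℕ) {s : ℂ} (h1 : 1 < s.re) (h2 : s.re ≤ 2) {a x : ℝ}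
    (ha : 1 ≤ a) (hx : a ≤ x) :
    ‖h95_f j s x - h95_f j s a‖ ≤
      ((j : ℝ) + (2 + |s.im|)) * (1 + Real.log x) ^ j / a ^ 2 * (x - a) := by
  refine norm_image_sub_le_of_norm_deriv_le_segment' (a := a) (b := x)
    (f := h95_f j s) (fun y hy => (h95_f_deriv j s (by linarith [hy.1])).hasDerivWithinAt) ?_ x
    ⟨hx, le_rfl⟩
  intro y hy
  have hy1 : 1 ≤ y := ha.trans hy.1
  have hy0 : 0 < y := by linarith
  have hlog0 : 0 ≤ Real.log y := Real.log_nonneg hy1
  have hlog : Real.log y ≤ Real.log x := Real.log_le_log hy0 hy.2.le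
  have hexp : ‖Complex.exp (-s * (Real.log y : ℂ))‖ ≤ y⁻¹ := by
    rw [Complex.norm_exp]
    have : (-s * (Real.log y : ℂ)).re = -(s.re * Real.log y) := by simp
    rw [this]
    calc Real.exp (-(s.re * Real.log y)) ≤ Real.exp (-Real.log y) := by
          apply Real.exp_le_exp.2
          nlinarith
      _ = y⁻¹ := by rw [Real.exp_neg, Real.exp_log hy0]
  have hs := norm_s_le h1 h2
  have hj1 : Real.log y ^ (j - 1) ≤ (1 + Real.log x) ^ j := by
    calc Real.log y ^ (j - 1) ≤ (1 + Real.log x) ^ (j - 1) := by gcongr; linarith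
      _ ≤ (1 + Real.log x) ^ j := pow_le_pow_right₀ (by linarith) (by omega)
  have hj2 : Real.log y ^ j ≤ (1 + Real.log x) ^ j := by gcongr; linarith
  have hyi : ‖((y⁻¹ : ℝ) : ℂ)‖ = y⁻¹ := by
    rw [Complex.norm_real, Real.norm_of_nonneg (by positivity)]
  have hP : (0 : ℝ) ≤ (1 + Real.log x) ^ j := by
    have : 0 ≤ Real.log x := hlog0.trans hlog
    positivity
  calc _ ≤ ‖((j : ℂ) * (Real.log y : ℂ) ^ (j - 1) * ((y⁻¹ : ℝ) : ℂ)) *
        Complex.exp (-s * (Real.log y : ℂ))‖ +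
        ‖(Real.log y : ℂ) ^ j * (Complex.exp (-s * (Real.log y : ℂ)) * (-s * ((y⁻¹ : ℝ) : ℂ)))‖ :=
        norm_add_le _ _
    _ = ((j : ℝ) * Real.log y ^ (j - 1) * y⁻¹) * ‖Complex.exp (-s * (Real.log y : ℂ))‖ +
        Real.log y ^ j * (‖Complex.exp (-s * (Real.log y : ℂ))‖ * (‖s‖ * y⁻¹)) := by
        rw [norm_mul, norm_mul, norm_mul, norm_mul, norm_mul, norm_mul, norm_pow, norm_pow, hyi,
          Complex.norm_real, Real.norm_of_nonneg hlog0, Complex.norm_natCast, norm_neg]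
    _ ≤ ((j : ℝ) * (1 + Real.log x) ^ j * y⁻¹) * y⁻¹ +
        (1 + Real.log x) ^ j * (y⁻¹ * ((2 + |s.im|) * y⁻¹)) := by gcongr
    _ = ((j : ℝ) + (2 + |s.im|)) * (1 + Real.log x) ^ j / y ^ 2 := by field_simp
    _ ≤ _ := by
        have : a ^ 2 ≤ y ^ 2 := by
          have := hy.1
          gcongr
        gcongr

/-- A block of `q` consecutive terms, starting at `q k`. -/
private lemma block {q : ℕ} [NeZero q] {χ : DirichletCharacter ℂ q} (hχ : χ ≠ 1) (j : ℕ)
    {s : ℂ} (h1 : 1 < s.re) (h2 : s.re ≤ 2) {k : ℕ} (hk : 1 ≤ k) :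
    ‖∑ r : ZMod q, LSeries.term (fun n : ℕ => χ n * (Real.log n : ℂ) ^ j) s (r.val + q * k)‖
      ≤ ((j : ℝ) + (2 + |s.im|)) * (1 + Real.log (2 * (q * k))) ^ j / (k : ℝ) ^ 2 := by
  have hq0 : 0 < q := Nat.pos_of_ne_zero (NeZero.ne q)
  have hq : (1 : ℝ) ≤ q := by exact_mod_cast hq0
  have hk' : (1 : ℝ) ≤ k := by exact_mod_cast hk
  set y : ℝ := (q : ℝ) * k with hy
  have hy1 : 1 ≤ y := by nlinarith
  have hsum0 : ∑ r : ZMod q, χ r = 0 := MulChar.sum_eq_zero_of_ne_one hχ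
  have hterm : ∀ r : ZMod q, LSeries.term (fun n : ℕ => χ n * (Real.log n : ℂ) ^ j) s
      (r.val + q * k) = χ r * h95_f j s (r.val + y) := by
    intro r
    have hne : r.val + q * k ≠ 0 := by
      have : 0 < q * k := by positivity
      omega
    rw [h95_term_f χ j s hne]
    congr 1
    · simp
    · rw [hy]; push_cast; rfl
  simp_rw [hterm]
  have hsub : ∑ r : ZMod q, χ r * h95_f j s (r.val + y) =
      ∑ r : ZMod q, χ r * (h95_f j s (r.val + y) - h95_f j s y) := by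
    simp_rw [mul_sub]
    rw [Finset.sum_sub_distrib, ← Finset.sum_mul, hsum0, zero_mul, sub_zero]
  rw [hsub]
  have hbd : ∀ r : ZMod q, ‖χ r * (h95_f j s (r.val + y) - h95_f j s y)‖ ≤
      (((j : ℝ) + (2 + |s.im|)) * (1 + Real.log (2 * y)) ^ j) / y ^ 2 * q := by
    intro r
    have hr0 : (0 : ℝ) ≤ r.val := Nat.cast_nonneg _
    have hrq : (r.val : ℝ) ≤ q := by exact_mod_cast (ZMod.val_lt r).le
    have hlip := f_lip j h1 h2 hy1 (x := r.val + y) (by linarith)
    have hlog : Real.log (r.val + y) ≤ Real.log (2 * y) := by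
      have hle : (r.val : ℝ) + y ≤ 2 * y := by
        have : (q : ℝ) ≤ y := by nlinarith
        linarith
      exact Real.log_le_log (by linarith) hle
    have hlog0 : 0 ≤ Real.log (r.val + y) := Real.log_nonneg (by linarith)
    rw [norm_mul]
    calc ‖χ r‖ * ‖h95_f j s (r.val + y) - h95_f j s y‖
        ≤ 1 * (((j : ℝ) + (2 + |s.im|)) * (1 + Real.log (r.val + y)) ^ j / y ^ 2 *
            (r.val + y - y)) := by
          gcongr
          exact χ.norm_le_one r
      _ ≤ 1 * ((((j : ℝ) + (2 + |s.im|)) * (1 + Real.log (2 * y)) ^ j) / y ^ 2 * q) := by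
          have : (r.val : ℝ) + y - y ≤ q := by linarith
          have h8 : (0 : ℝ) ≤ (r.val : ℝ) + y - y := by linarith
          have h9 : 0 ≤ Real.log (2 * y) := hlog0.trans hlog
          gcongr
      _ = _ := one_mul _
  refine (norm_sum_le _ _).trans ((Finset.sum_le_sum fun r _ => hbd r).trans ?_)
  rw [Finset.sum_const, Finset.card_univ, ZMod.card, nsmul_eq_mul, hy]
  refine le_of_eq ?_
  field_simp

/-- The first `N` terms. -/
private lemma first {q : ℕ} (χ : DirichletCharacter ℂ q) (j : ℕ)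
    {s : ℂ} (h1 : 1 < s.re) {N : ℕ} (hN : 1 ≤ N) :
    ‖∑ n ∈ range N, LSeries.term (fun n : ℕ => χ n * (Real.log n : ℂ) ^ j) s n‖
      ≤ (1 + Real.log N) ^ (j + 1) := by
  have hq : (1 : ℝ) ≤ N := by exact_mod_cast hN
  have hlq : 0 ≤ Real.log N := Real.log_nonneg hq
  refine (norm_sum_le _ _).trans ?_
  have hbd : ∀ n ∈ range N, ‖LSeries.term (fun n : ℕ => χ n * (Real.log n : ℂ) ^ j) s n‖ ≤
      (1 + Real.log N) ^ j * ((n : ℝ)⁻¹) := by
    intro n hn
    rw [Finset.mem_range] at hn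
    by_cases hn0 : n = 0
    · subst hn0; simp
    · have hn1 : (1 : ℝ) ≤ n := by exact_mod_cast Nat.one_le_iff_ne_zero.2 hn0
      rw [LSeries.norm_term_eq, if_neg hn0, div_eq_mul_inv]
      have h2 : ‖χ n * (Real.log n : ℂ) ^ j‖ ≤ (1 + Real.log N) ^ j := by
        refine (h95_coeff_DD χ j n).trans ?_
        have : Real.log n ≤ Real.log N := Real.log_le_log (by linarith) (by exact_mod_cast hn.le)
        have h0 : 0 ≤ Real.log (n : ℝ) := Real.log_nonneg hn1
        gcongr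
        linarith
      have h3 : (n : ℝ) ≤ (n : ℝ) ^ s.re := by
        calc (n : ℝ) = (n : ℝ) ^ (1 : ℝ) := (Real.rpow_one _).symm
          _ ≤ _ := Real.rpow_le_rpow_of_exponent_le hn1 h1.le
      gcongr
  refine (Finset.sum_le_sum hbd).trans ?_
  rw [← Finset.mul_sum]
  have hharm : ∑ n ∈ range N, ((n : ℝ)⁻¹) ≤ 1 + Real.log N := by
    obtain ⟨k, rfl⟩ : ∃ k, N = k + 1 := ⟨N - 1, by omega⟩
    rw [Finset.sum_range_succ']
    have h4 := harmonic_le_one_add_log k
    have h5 : ((harmonic k : ℚ) : ℝ) = ∑ n ∈ range k, (((n + 1 : ℕ) : ℝ)⁻¹) := by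
      rw [harmonic]; push_cast; rfl
    rw [h5] at h4
    have h6 : Real.log (k : ℝ) ≤ Real.log ((k + 1 : ℕ) : ℝ) := by
      by_cases hk : k = 0
      · subst hk; simp
      · exact Real.log_le_log (by exact_mod_cast Nat.pos_of_ne_zero hk) (by push_cast; linarith)
    simp only [Nat.cast_zero, inv_zero, add_zero]
    linarith
  calc (1 + Real.log N) ^ j * ∑ n ∈ range N, ((n : ℝ)⁻¹) ≤
        (1 + Real.log N) ^ j * (1 + Real.log N) := by
        gcongr
    _ = _ := by rw [pow_succ]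

private lemma one_le_ll {q : ℕ} (hq : 1 ≤ q) (s : ℂ) : 1 ≤ ll q s := by
  have h1 : 0 ≤ Real.log (q : ℝ) := Real.log_nonneg (by exact_mod_cast hq)
  have h2 : 0 ≤ Real.log (2 + |s.im|) := Real.log_nonneg (by linarith [abs_nonneg s.im])
  unfold ll
  linarith

/-- Telescoping bound. -/
private lemma tele {M : ℕ} (hM : 1 ≤ M) (n : ℕ) :
    ∑ i ∈ range n, 1 / (((i + M : ℕ) : ℝ) * √((i + M : ℕ) : ℝ)) ≤ 4 / √(M : ℝ) := by
  have key : ∀ k : ℕ, 1 ≤ k → 1 / ((k : ℝ) * √(k : ℝ)) ≤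
      4 * (1 / √(k : ℝ)) - 4 * (1 / √((k + 1 : ℕ) : ℝ)) := by
    intro k hk
    have hk' : (1 : ℝ) ≤ k := by exact_mod_cast hk
    set a := √(k : ℝ) with ha
    set b := √((k + 1 : ℕ) : ℝ) with hb
    have ha0 : 0 < a := Real.sqrt_pos.2 (by linarith)
    have hb0 : 0 < b := Real.sqrt_pos.2 (by push_cast; linarith)
    have ha2 : a ^ 2 = k := Real.sq_sqrt (by linarith)
    have hb2 : b ^ 2 = k + 1 := by
      rw [hb, Real.sq_sqrt (by positivity)]; push_cast; ring
    have hab : a ≤ b := by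
      apply Real.sqrt_le_sqrt; push_cast; linarith
    have hb3 : b ≤ 3 / 2 * a := by
      have : b ^ 2 ≤ (3 / 2 * a) ^ 2 := by
        rw [mul_pow, ha2, hb2]; nlinarith
      exact (pow_le_pow_iff_left₀ hb0.le (by positivity) two_ne_zero).1 this
    have hmul : (b - a) * (b + a) = 1 := by
      have e : (b - a) * (b + a) = b ^ 2 - a ^ 2 := by ring
      rw [e, ha2, hb2]
      ring
    have e : 4 * (1 / a) - 4 * (1 / b) = 4 * (b - a) / (a * b) := by
      field_simp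
    rw [e, ← ha2, div_le_div_iff₀ (by positivity) (by positivity)]
    -- `a * b ≤ 4 (b - a) a^3`
    have h1 : b - a = 1 / (b + a) := by
      rw [eq_div_iff (by positivity)]; exact hmul
    rw [h1]
    have h2 : 1 * (a * b) = a * b := one_mul _
    rw [h2, mul_one_div, div_mul_eq_mul_div, le_div_iff₀ (by positivity)]
    have h3 : b * (b + a) ≤ 4 * a ^ 2 := by
      have : b * (b + a) ≤ (3 / 2 * a) * (3 / 2 * a + a) := by gcongr
      have e : (3 / 2 * a) * (3 / 2 * a + a) = 15 / 4 * a ^ 2 := by ring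
      have e' := sq_nonneg a
      linarith
    linarith [mul_le_mul_of_nonneg_left h3 ha0.le]
  have h := Finset.sum_le_sum (s := range n) fun i _ => key (i + M) (by omega)
  refine h.trans ?_
  have h2 := Finset.sum_range_sub' (fun i : ℕ => 4 * (1 / √((i + M : ℕ) : ℝ))) n
  have h3 : ∑ i ∈ range n, (4 * (1 / √((i + M : ℕ) : ℝ)) - 4 * (1 / √((i + M + 1 : ℕ) : ℝ))) =
      ∑ i ∈ range n, ((fun i : ℕ => 4 * (1 / √((i + M : ℕ) : ℝ))) i -
        (fun i : ℕ => 4 * (1 / √((i + M : ℕ) : ℝ))) (i + 1)) := by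
    refine Finset.sum_congr rfl fun i _ => ?_
    simp only
    rw [show i + 1 + M = i + M + 1 by ring]
  rw [h3, h2]
  simp only [zero_add]
  have : 0 ≤ 4 * (1 / √((n + M : ℕ) : ℝ)) := by positivity
  have e : 4 * (1 / √(M : ℝ)) = 4 / √(M : ℝ) := by ring
  linarith

/-- sw:1 -/
theorem DD_bound_t (j : ℕ) : ∃ C : ℝ, 0 < C ∧ ∀ q : ℕ, 2 ≤ q → ∀ χ : DirichletCharacter ℂ q,
    χ ≠ 1 → ∀ s : ℂ, 1 < s.re → s.re ≤ 2 → ‖DD χ j s‖ ≤ C * ll q s ^ (j + 1) := by
  set K : ℝ := 3 ^ j * ((j.factorial : ℝ) * 2 ^ j * Real.exp 1 ^ (1 / 2 : ℝ)) with hK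
  have hK0 : 0 ≤ K := by positivity
  refine ⟨2 ^ (j + 1) + ((j : ℝ) + 1) * K * 4, by positivity, ?_⟩
  intro q hq2 χ hχ s h1 h2
  have : NeZero q := ⟨by omega⟩
  have hq : (1 : ℝ) ≤ q := by exact_mod_cast (by omega : 1 ≤ q)
  have hlq : 0 ≤ Real.log q := Real.log_nonneg hq
  set T : ℝ := 2 + |s.im| with hT
  have hT2 : 2 ≤ T := by linarith [abs_nonneg s.im]
  have hlT : 0 ≤ Real.log T := Real.log_nonneg (by linarith)
  have hll1 : 1 ≤ ll q s := one_le_ll (by omega) s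
  have hll : ll q s = 1 + Real.log q + Real.log T := rfl
  set M : ℕ := ⌈T⌉₊ with hM
  have hMT : T ≤ M := Nat.le_ceil T
  have hM2 : (M : ℝ) ≤ 2 * T := by
    have := (Nat.ceil_lt_add_one (by linarith : 0 ≤ T)).le
    linarith
  have hM1 : 1 ≤ M := by
    have : (1 : ℝ) ≤ M := by linarith
    exact_mod_cast this
  have hM0 : (0 : ℝ) < M := by linarith
  have hlog2 : Real.log 2 ≤ 1 := by
    have := Real.log_two_lt_d9
    linarith
  have hlM : Real.log M ≤ 1 + Real.log T := by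
    calc Real.log M ≤ Real.log (2 * T) := Real.log_le_log hM0 hM2
      _ = Real.log 2 + Real.log T := Real.log_mul (by norm_num) (by linarith)
      _ ≤ _ := by linarith
  have hsum : Summable (LSeries.term (fun n : ℕ => χ n * (Real.log n : ℂ) ^ j) s) :=
    h95_summable_DD χ j h1
  set tm := LSeries.term (fun n : ℕ => χ n * (Real.log n : ℂ) ^ j) s with htm
  have hsum2 : Summable (fun n => tm (n + q * M)) := (summable_nat_add_iff (q * M)).2 hsum
  have hcomp : ∀ r : ZMod q, Summable fun m : ℕ => tm (r.val + q * m + q * M) := by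
    intro r
    refine hsum2.comp_injective (i := fun m : ℕ => r.val + q * m) ?_
    intro a b hab
    have : q * a = q * b := by simpa using hab
    exact Nat.eq_of_mul_eq_mul_left (by omega) this
  have heq : DD χ j s = ∑ n ∈ range (q * M), tm n
      + ∑' m : ℕ, ∑ r : ZMod q, tm (r.val + q * (m + M)) := by
    unfold DD LSeries
    rw [← htm, ← hsum.sum_add_tsum_nat_add (q * M), Nat.sumByResidueClasses hsum2 q,
      Summable.tsum_finsetSum]
    · congr 1
      refine Finset.sum_congr rfl fun r _ => ?_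
      refine tsum_congr fun m => ?_
      congr 1
      ring
    · intro r _
      refine (hcomp r).congr fun m => ?_
      congr 1
      ring
  rw [heq]
  -- the first part
  have hfirst : ‖∑ n ∈ range (q * M), tm n‖ ≤ 2 ^ (j + 1) * ll q s ^ (j + 1) := by
    refine (first χ j h1 (N := q * M) (Nat.mul_pos (by omega) hM1)).trans ?_
    rw [← mul_pow]
    have e : Real.log ((q * M : ℕ) : ℝ) = Real.log q + Real.log M := by
      push_cast
      exact Real.log_mul (by linarith) hM0.ne'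
    have hp : 0 ≤ Real.log ((q * M : ℕ) : ℝ) := Real.log_natCast_nonneg _
    have h3 : 1 + Real.log ((q * M : ℕ) : ℝ) ≤ 2 * ll q s := by
      rw [e, hll]; linarith
    gcongr
  -- the blocks
  have hblk : ∀ m : ℕ, ‖∑ r : ZMod q, tm (r.val + q * (m + M))‖ ≤
      (((j : ℝ) + T) * K * ll q s ^ j / √(M : ℝ)) *
        (1 / (((m + M : ℕ) : ℝ) * √((m + M : ℕ) : ℝ))) := by
    intro m
    have hb := block hχ j h1 h2 (k := m + M) (by omega)
    rw [← htm, ← hT] at hb
    refine hb.trans ?_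
    set k : ℝ := ((m + M : ℕ) : ℝ) with hk
    have hkM : (M : ℝ) ≤ k := by
      rw [hk]; push_cast; linarith [(Nat.cast_nonneg m : (0:ℝ) ≤ m)]
    have hk0 : 0 < k := by linarith
    have hu1 : 1 ≤ k / M := (one_le_div hM0).2 hkM
    have hlu : 0 ≤ Real.log (k / M) := Real.log_nonneg hu1
    have e1 : Real.log (2 * (q * k)) = Real.log 2 + Real.log q + Real.log M + Real.log (k / M) := by
      rw [Real.log_mul (by norm_num) (by positivity), Real.log_mul (by linarith) hk0.ne',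
        Real.log_div hk0.ne' hM0.ne']
      ring
    have hlM0 : 0 ≤ Real.log (M : ℝ) := Real.log_natCast_nonneg _
    have e2 : 1 + Real.log (2 * (q * k)) ≤ 3 * ll q s * (1 + Real.log (k / M)) := by
      have : 1 + Real.log (2 * (q * k)) ≤ 3 * ll q s + Real.log (k / M) := by
        rw [e1, hll]; linarith
      have h4 := mul_le_mul_of_nonneg_right hll1 hlu
      linarith [mul_nonneg (mul_nonneg (by norm_num : (0 : ℝ) ≤ 3) (by linarith : (0 : ℝ) ≤ ll q s)) hlu]
    have e0 : 0 ≤ 1 + Real.log (2 * (q * k)) := by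
      have : 0 ≤ Real.log 2 := Real.log_nonneg (by norm_num)
      rw [e1]; linarith
    have e3 : (1 + Real.log (k / M)) ^ j ≤
        ((j.factorial : ℝ) * 2 ^ j * Real.exp 1 ^ (1 / 2 : ℝ)) * √(k / M) := by
      have h3 := h95_log_pow_le j (δ := 1 / 2) (x := Real.exp 1 * (k / M)) (by norm_num) (by
        have : (1 : ℝ) ≤ Real.exp 1 := Real.one_le_exp (by norm_num)
        exact one_le_mul_of_one_le_of_one_le this hu1)
      rw [Real.log_mul (Real.exp_pos 1).ne' (by positivity), Real.log_exp,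
        Real.mul_rpow (Real.exp_pos 1).le (by positivity)] at h3
      rw [Real.sqrt_eq_rpow]
      refine h3.trans (le_of_eq ?_)
      norm_num
      ring
    have e4 : (1 + Real.log (2 * (q * k))) ^ j ≤ K * ll q s ^ j * √(k / M) := by
      calc (1 + Real.log (2 * (q * k))) ^ j ≤ (3 * ll q s * (1 + Real.log (k / M))) ^ j := by
            gcongr
        _ = 3 ^ j * ll q s ^ j * (1 + Real.log (k / M)) ^ j := by rw [mul_pow, mul_pow]
        _ ≤ 3 ^ j * ll q s ^ j *
            (((j.factorial : ℝ) * 2 ^ j * Real.exp 1 ^ (1 / 2 : ℝ)) * √(k / M)) := by gcongr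
        _ = _ := by rw [hK]; ring
    have e5 : √(k / M) / k ^ 2 = 1 / √(M : ℝ) * (1 / (k * √k)) := by
      rw [Real.sqrt_div hk0.le]
      have hsk : √k * √k = k := Real.mul_self_sqrt hk0.le
      have hsk0 : 0 < √k := Real.sqrt_pos.2 hk0
      have hsM0 : 0 < √(M : ℝ) := Real.sqrt_pos.2 hM0
      field_simp
      exact Real.sq_sqrt hk0.le
    calc ((j : ℝ) + T) * (1 + Real.log (2 * (q * k))) ^ j / k ^ 2
        ≤ ((j : ℝ) + T) * (K * ll q s ^ j * √(k / M)) / k ^ 2 := by gcongr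
      _ = ((j : ℝ) + T) * K * ll q s ^ j * (√(k / M) / k ^ 2) := by ring
      _ = _ := by rw [e5]; ring
  set B : ℝ := ((j : ℝ) + T) * K * ll q s ^ j / √(M : ℝ) with hB
  have hB0 : 0 ≤ B := by positivity
  have hfin : ∀ n : ℕ, ∑ i ∈ range n, ‖∑ r : ZMod q, tm (r.val + q * (i + M))‖ ≤
      B * (4 / √(M : ℝ)) := by
    intro n
    refine (Finset.sum_le_sum fun i _ => hblk i).trans ?_
    rw [← Finset.mul_sum]
    exact mul_le_mul_of_nonneg_left (tele hM1 n) hB0
  have hnn : ∀ n : ℕ, 0 ≤ ‖∑ r : ZMod q, tm (r.val + q * (n + M))‖ := fun n => norm_nonneg _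
  have htail : ‖∑' m : ℕ, ∑ r : ZMod q, tm (r.val + q * (m + M))‖ ≤ B * (4 / √(M : ℝ)) :=
    (norm_tsum_le_tsum_norm (summable_of_sum_range_le hnn hfin)).trans
      (Real.tsum_le_of_sum_range_le hnn hfin)
  have htail2 : B * (4 / √(M : ℝ)) ≤ ((j : ℝ) + 1) * K * 4 * ll q s ^ (j + 1) := by
    have hsM : √(M : ℝ) * √(M : ℝ) = M := Real.mul_self_sqrt hM0.le
    have hsM0 : 0 < √(M : ℝ) := Real.sqrt_pos.2 hM0
    have e6 : B * (4 / √(M : ℝ)) = ((j : ℝ) + T) / M * (K * 4 * ll q s ^ j) := by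
      rw [hB, div_mul_div_comm, hsM]
      ring
    have e7 : ((j : ℝ) + T) / M ≤ (j : ℝ) + 1 := by
      rw [div_le_iff₀ hM0]
      have hj : (0 : ℝ) ≤ j := Nat.cast_nonneg j
      nlinarith
    have e8 : ll q s ^ j ≤ ll q s ^ (j + 1) := pow_le_pow_right₀ hll1 (by omega)
    rw [e6]
    calc ((j : ℝ) + T) / M * (K * 4 * ll q s ^ j)
        ≤ ((j : ℝ) + 1) * (K * 4 * ll q s ^ (j + 1)) := by gcongr
      _ = _ := by ring
  refine (norm_add_le _ _).trans ?_
  calc _ ≤ 2 ^ (j + 1) * ll q s ^ (j + 1) + ((j : ℝ) + 1) * K * 4 * ll q s ^ (j + 1) :=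
        add_le_add hfirst (htail.trans htail2)
    _ = _ := by ring

/-- sw:1 -/
theorem DD_lip_t : ∃ C : ℝ, 0 < C ∧ ∀ q : ℕ, 2 ≤ q → ∀ χ : DirichletCharacter ℂ q,
    χ ≠ 1 → ∀ s s' : ℂ, 1 < s.re → s.re ≤ 2 → 1 < s'.re → s'.re ≤ 2 → |s'.im| ≤ |s.im| →
    ‖DD χ 0 s - DD χ 0 s'‖ ≤ C * ll q s ^ 2 * ‖s - s'‖ := by
  obtain ⟨C, hC, h⟩ := DD_bound_t 1
  refine ⟨C, hC, ?_⟩
  intro q hq χ hχ s t hs1 hs2 ht1 ht2 hts
  set D : Set ℂ := {z : ℂ | 1 < z.re ∧ z.re ≤ 2 ∧ |z.im| ≤ |s.im|} with hD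
  have hconv : Convex ℝ D := by
    have e : D = ({z : ℂ | 1 < z.re} ∩ {z : ℂ | z.re ≤ 2}) ∩
        ({z : ℂ | -|s.im| ≤ z.im} ∩ {z : ℂ | z.im ≤ |s.im|}) := by
      ext z
      simp only [hD, Set.mem_ofPred_eq, Set.mem_inter_iff, abs_le]
      tauto
    rw [e]
    exact ((convex_halfSpace_re_gt 1).inter (convex_halfSpace_re_le 2)).inter
      ((convex_halfSpace_im_ge (-|s.im|)).inter (convex_halfSpace_im_le |s.im|))
  have hder : ∀ z ∈ D, HasDerivWithinAt (DD χ 0) (-DD χ 1 z) D z := by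
    intro z hz
    have h1 : LSeries.abscissaOfAbsConv (fun n : ℕ => χ n * (Real.log n : ℂ) ^ 0) < z.re := by
      refine lt_of_le_of_lt (LSeries.abscissaOfAbsConv_le_of_le_const ⟨1, fun n _ => ?_⟩) ?_
      · have := h95_coeff_DD χ 0 n
        simpa using this
      · exact_mod_cast hz.1
    have h2 := LSeries_hasDerivAt h1
    have h3 : LSeries (LSeries.logMul fun n : ℕ => χ n * (Real.log n : ℂ) ^ 0) z = DD χ 1 z := by
      unfold DD
      congr 1
      funext n
      simp only [LSeries.logMul, pow_zero, mul_one, pow_one, ← Complex.natCast_log]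
      ring
    rw [h3] at h2
    exact h2.hasDerivWithinAt
  have hq1 : (1 : ℝ) ≤ q := by exact_mod_cast (by omega : 1 ≤ q)
  have hbd : ∀ z ∈ D, ‖-DD χ 1 z‖ ≤ C * ll q s ^ 2 := by
    intro z hz
    rw [norm_neg]
    refine (h q hq χ hχ z hz.1 hz.2.1).trans ?_
    have h4 : ll q z ≤ ll q s := by
      unfold ll
      have := Real.log_le_log (by linarith [abs_nonneg z.im] : 0 < 2 + |z.im|)
        (by linarith [hz.2.2] : 2 + |z.im| ≤ 2 + |s.im|)
      linarith
    have h5 : 0 ≤ ll q z := by linarith [one_le_ll (by omega : 1 ≤ q) z]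
    have : ll q z ^ (1 + 1) ≤ ll q s ^ 2 := by
      norm_num
      gcongr
    exact mul_le_mul_of_nonneg_left this hC.le
  exact hconv.norm_image_sub_le_of_norm_hasDerivWithin_le hder hbd ⟨ht1, ht2, hts⟩
    ⟨hs1, hs2, le_rfl⟩

end Pool.Agent.helper74.TG
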