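import Pool.Agent.helper18.TG.WT1
import Pool.Agent.helper85.TG.VA1

/-!
# GNU project (MP_d11331_al), analytic part wt:7: the count in the Ramanujan model
-/

namespace Pool.Agent.helper74.TG

open Finset ArithmeticFunction

/-- The fraction belonging to a pair. -/
private noncomputable def th (r : Σ _ : ℕ, ℕ) : ℝ := (r.2 : ℝ) / r.1

private lemma mem_Fa {Q : ℕ} {r : Σ _ : ℕ, ℕ} :
    r ∈ Fa Q ↔ (0 < r.1 ∧ r.1 ≤ Q) ∧ r.2 < r.1 ∧ Nat.Coprime r.2 r.1 := by
  simp [Fa, Finset.mem_sigma]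

private lemma ee_nsum {ι : Type*} (s : Finset ι) (f : ι → ℝ) :
    ee (∑ i ∈ s, f i) = ∏ i ∈ s, ee (f i) := by
  classical
  induction s using Finset.induction_on with
  | empty => simp [h85_ee_zero]
  | insert a s ha ih => rw [Finset.sum_insert ha, Finset.prod_insert ha, h85_ee_add, ih]

/-- Different fractions have distance at least `1/Q^2` modulo `1`. -/
private lemma frac_dist {Q : ℕ} {r s : Σ _ : ℕ, ℕ} (hr : r ∈ Fa Q) (hs : s ∈ Fa Q) (h : r ≠ s) :
    1 / (Q : ℝ) ^ 2 ≤ |th r - th s - round (th r - th s)| := by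
  obtain ⟨⟨hr0, hrQ⟩, hr1, hr2⟩ := mem_Fa.1 hr
  obtain ⟨⟨hs0, hsQ⟩, hs1, hs2⟩ := mem_Fa.1 hs
  have hr0' : (0 : ℝ) < r.1 := by exact_mod_cast hr0
  have hs0' : (0 : ℝ) < s.1 := by exact_mod_cast hs0
  have hrQ' : (r.1 : ℝ) ≤ Q := by exact_mod_cast hrQ
  have hsQ' : (s.1 : ℝ) ≤ Q := by exact_mod_cast hsQ
  set z : ℤ := round (th r - th s) with hz
  set N : ℤ := (r.2 : ℤ) * s.1 - s.2 * r.1 - z * (r.1 * s.1) with hN
  have e : th r - th s - z = (N : ℝ) / (r.1 * s.1) := by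
    rw [th, th, hN]
    push_cast
    field_simp
  have hNne : N ≠ 0 := by
    intro h0
    have h1 : th r - th s = z := by
      have : th r - th s - z = 0 := by rw [e, h0]; simp
      linarith
    have hr3 : th r < 1 := by
      rw [th, div_lt_one hr0']; exact_mod_cast hr1
    have hs3 : th s < 1 := by
      rw [th, div_lt_one hs0']; exact_mod_cast hs1
    have hr4 : 0 ≤ th r := by rw [th]; positivity
    have hs4 : 0 ≤ th s := by rw [th]; positivity
    have hz1 : z < 1 := by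
      have : (z : ℝ) < 1 := by linarith
      exact_mod_cast this
    have hz2 : -1 < z := by
      have : (-1 : ℝ) < z := by linarith
      exact_mod_cast this
    have hz0 : z = 0 := by omega
    rw [hN, hz0] at h0
    have h2 : r.2 * s.1 = s.2 * r.1 := by
      have : (r.2 : ℤ) * s.1 = s.2 * r.1 := by linarith
      exact_mod_cast this
    have h3 : r.1 ∣ s.1 := by
      have : r.1 ∣ r.2 * s.1 := ⟨s.2, by rw [h2]; ring⟩
      exact hr2.symm.dvd_of_dvd_mul_left this
    have h4 : s.1 ∣ r.1 := by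
      have : s.1 ∣ s.2 * r.1 := ⟨r.2, by rw [← h2]; ring⟩
      exact hs2.symm.dvd_of_dvd_mul_left this
    have h5 : r.1 = s.1 := Nat.dvd_antisymm h3 h4
    have h6 : r.2 = s.2 := by
      rw [h5] at h2
      exact Nat.eq_of_mul_eq_mul_right hs0 h2
    apply h
    cases r; cases s
    simp only at h5 h6
    subst h5; subst h6; rfl
  rw [e, abs_div, abs_of_pos (by positivity : (0 : ℝ) < r.1 * s.1)]
  have h1 : (1 : ℝ) ≤ |(N : ℝ)| := by
    have : (1 : ℤ) ≤ |N| := Int.one_le_abs hNne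
    exact_mod_cast this
  apply div_le_div₀ (abs_nonneg _) h1 (by positivity)
  rw [pow_two]
  gcongr

private lemma gb_le {X β : ℝ} (h : 0 < |β - round β|) : gb X β ≤ 1 / (2 * |β - round β|) := by
  unfold gb
  split_ifs with h1
  · rw [le_div_iff₀ (by positivity)]
    linarith
  · exact le_rfl

/-- Sum over an interval of the phases. -/
private lemma interval_bound {Q : ℕ} (hQ : 0 < Q) {r s : Σ _ : ℕ, ℕ} (hr : r ∈ Fa Q)
    (hs : s ∈ Fa Q) (h : r ≠ s) (a b : ℕ) :
    ‖∑ v ∈ Ioc a b, ee (v * (th r - th s))‖ ≤ (Q : ℝ) ^ 2 / 2 := by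
  have hQ' : (0 : ℝ) < Q := by exact_mod_cast hQ
  rcases le_or_gt a b with hab | hab
  · refine (geom_bound a b hab _).trans ?_
    have h1 := frac_dist hr hs h
    have h2 : 0 < |th r - th s - round (th r - th s)| := lt_of_lt_of_le (by positivity) h1
    refine (gb_le h2).trans ?_
    rw [div_le_div_iff₀ (by positivity) (by norm_num)]
    have h3 : (Q : ℝ) ^ 2 * (1 / (Q : ℝ) ^ 2) = 1 := by field_simp
    have h4 : (Q : ℝ) ^ 2 * (1 / (Q : ℝ) ^ 2) ≤ (Q : ℝ) ^ 2 *
      |th r - th s - round (th r - th s)| := by gcongr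
    nlinarith
  · rw [Finset.Ioc_eq_empty (by omega), Finset.sum_empty, norm_zero]
    positivity

private lemma third (i j : Fin 3) (h : i ≠ j) :
    ∃ k : Fin 3, k ≠ i ∧ k ≠ j ∧ ∀ l, l = i ∨ l = j ∨ l = k := by
  revert i j
  decide

private lemma sum_three {M : Type*} [AddCommMonoid M] {i j k : Fin 3} (h : i ≠ j) (hk : k ≠ i)
    (hkj : k ≠ j) (f : Fin 3 → M) : ∑ l, f l = f i + f j + f k := by
  have : (Finset.univ : Finset (Fin 3)) = {i, j, k} := by
    revert i j k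
    decide
  rw [this, Finset.sum_insert, Finset.sum_insert, Finset.sum_singleton, add_assoc]
  · simpa using hkj.symm
  · simp [h, hk.symm]

/-- The off diagonal terms. -/
private lemma off_bound {Q : ℕ} (hQ : 0 < Q) {r : Fin 3 → Σ _ : ℕ, ℕ} (hr : ∀ i, r i ∈ Fa Q)
    {i j : Fin 3} (hij : i ≠ j) (hne : r i ≠ r j) (n : ℕ) (lo hi : Fin 3 → ℕ)
    (hhi : ∀ i, hi i ≤ n) :
    ‖∑ x ∈ (Fintype.piFinset fun i : Fin 3 => Ioc (lo i) (hi i)) with ∑ i, x i = n,
      ∏ i, ee ((x i : ℝ) * th (r i))‖ ≤ n * ((Q : ℝ) ^ 2 / 2) := by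
  obtain ⟨k, hki, hkj, hall⟩ := third i j hij
  set P := (Fintype.piFinset fun i : Fin 3 => Ioc (lo i) (hi i)).filter
    (fun x => ∑ i, x i = n) with hP
  have hmaps : ∀ x ∈ P, x k ∈ Ioc (lo k) (hi k) := by
    intro x hx
    rw [hP, Finset.mem_filter, Fintype.mem_piFinset] at hx
    exact hx.1 k
  rw [← Finset.sum_fiberwise_of_maps_to hmaps]
  refine (norm_sum_le _ _).trans ?_
  have hcard : ((Ioc (lo k) (hi k)).card : ℝ) ≤ n := by
    rw [Nat.card_Ioc]
    have := hhi k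
    exact_mod_cast (by omega : hi k - lo k ≤ n)
  have hfib : ∀ u ∈ Ioc (lo k) (hi k),
      ‖∑ x ∈ P with x k = u, ∏ i, ee ((x i : ℝ) * th (r i))‖ ≤ (Q : ℝ) ^ 2 / 2 := by
    intro u hu
    have hun : u ≤ n := (Finset.mem_Ioc.1 hu).2.trans (hhi k)
    set a' : ℕ := if n - u - hi j = 0 then lo i else max (lo i) (n - u - hi j - 1) with ha'
    set b : ℕ := if n - u ≤ lo j then 0 else min (hi i) (n - u - lo j - 1) with hb
    let g : ℕ → Fin 3 → ℕ := fun v l => if l = i then v else if l = k then u else n - u - v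
    have gi : ∀ v, g v i = v := fun v => if_pos rfl
    have gk : ∀ v, g v k = u := fun v => by
      change (if k = i then v else if k = k then u else n - u - v) = u
      rw [if_neg hki, if_pos rfl]
    have gj : ∀ v, g v j = n - u - v := fun v => by
      change (if j = i then v else if j = k then u else n - u - v) = n - u - v
      rw [if_neg hij.symm, if_neg hkj.symm]
    have hbij : ∑ x ∈ P with x k = u, ∏ i, ee ((x i : ℝ) * th (r i)) =
        ∑ v ∈ Ioc a' b, ee (v * (th (r i) - th (r j))) *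
          (ee (((n : ℝ) - u) * th (r j)) * ee (u * th (r k))) := by
      refine Finset.sum_nbij' (fun x => x i) g ?_ ?_ ?_ ?_ ?_
      · intro x hx
        rw [Finset.mem_filter, hP, Finset.mem_filter, Fintype.mem_piFinset] at hx
        obtain ⟨⟨hx1, hx2⟩, hx3⟩ := hx
        rw [sum_three hij hki hkj] at hx2
        have h1 := Finset.mem_Ioc.1 (hx1 i)
        have h2 := Finset.mem_Ioc.1 (hx1 j)
        rw [Finset.mem_Ioc, ha', hb]
        split_ifs <;> (try simp only [max_lt_iff, le_min_iff]) <;> omega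
      · intro v hv
        rw [Finset.mem_Ioc, ha', hb] at hv
        have hv2 : lo i < v ∧ v ≤ hi i ∧ v + u ≤ n ∧ lo j < n - u - v ∧ n - u - v ≤ hi j := by
          split_ifs at hv <;> (try simp only [max_lt_iff, le_min_iff] at hv) <;> omega
        rw [Finset.mem_filter, hP, Finset.mem_filter, Fintype.mem_piFinset]
        refine ⟨⟨?_, ?_⟩, gk v⟩
        · intro l
          rcases hall l with hl | hl | hl
          · rw [hl, gi, Finset.mem_Ioc]; omega
          · rw [hl, gj, Finset.mem_Ioc]; omega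
          · rw [hl, gk]; exact hu
        · rw [sum_three hij hki hkj, gi, gj, gk]
          omega
      · intro x hx
        rw [Finset.mem_filter, hP, Finset.mem_filter, Fintype.mem_piFinset] at hx
        obtain ⟨⟨hx1, hx2⟩, hx3⟩ := hx
        rw [sum_three hij hki hkj] at hx2
        funext l
        rcases hall l with hl | hl | hl
        · rw [hl, gi]
        · rw [hl, gj]; omega
        · rw [hl, gk, hx3]
      · intro v hv
        exact gi v
      · intro x hx
        rw [Finset.mem_filter, hP, Finset.mem_filter, Fintype.mem_piFinset] at hx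
        obtain ⟨⟨hx1, hx2⟩, hx3⟩ := hx
        rw [sum_three hij hki hkj] at hx2
        rw [← ee_nsum, sum_three hij hki hkj, ← h85_ee_add, ← h85_ee_add]
        congr 1
        have h1 : (n : ℝ) = x i + x j + x k := by exact_mod_cast hx2.symm
        rw [h1, ← hx3]
        ring
    rw [hbij, ← Finset.sum_mul, norm_mul, norm_mul, h85_norm_ee, h85_norm_ee, mul_one, mul_one]
    exact interval_bound hQ (hr i) (hr j) hne a' b
  refine (Finset.sum_le_sum hfib).trans ?_
  rw [Finset.sum_const, nsmul_eq_mul]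
  gcongr

private lemma tele (Q : ℕ) :
    ∑ q ∈ Ioc 22 Q, 1 / ((q : ℝ) * √(q : ℝ)) ≤ 1 / 2 := by
  have key : ∀ q : ℕ, 2 ≤ q → 1 / ((q : ℝ) * √(q : ℝ)) ≤
      2 * (1 / √((q - 1 : ℕ) : ℝ)) - 2 * (1 / √(q : ℝ)) := by
    intro q hq
    obtain ⟨k, rfl⟩ : ∃ k, q = k + 1 := ⟨q - 1, by omega⟩
    have hk : (1 : ℝ) ≤ k := by exact_mod_cast (by omega : 1 ≤ k)
    rw [show k + 1 - 1 = k by omega]
    set a := √(k : ℝ) with ha
    set b := √((k + 1 : ℕ) : ℝ) with hb
    have ha0 : 0 < a := Real.sqrt_pos.2 (by linarith)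
    have hb0 : 0 < b := Real.sqrt_pos.2 (by push_cast; linarith)
    have ha2 : a ^ 2 = k := Real.sq_sqrt (by linarith)
    have hb2' : b ^ 2 = ((k + 1 : ℕ) : ℝ) := Real.sq_sqrt (by positivity)
    have hb2 : b ^ 2 = k + 1 := by rw [hb2']; push_cast; ring
    have hab : a ≤ b := by
      apply Real.sqrt_le_sqrt; push_cast; linarith
    have hmul : (b - a) * (b + a) = 1 := by nlinarith
    have e : 2 * (1 / a) - 2 * (1 / b) = 2 * (b - a) / (a * b) := by
      field_simp
    have h1 : b - a = 1 / (b + a) := by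
      rw [eq_div_iff (by positivity)]; exact hmul
    rw [e, ← hb2', h1, mul_one_div, div_div, div_le_div_iff₀ (by positivity) (by positivity)]
    have h3 : (b + a) * (a * b) ≤ 2 * (b ^ 2 * b) := by
      have h4 : (b + a) * (a * b) ≤ (b + b) * (b * b) := by gcongr
      nlinarith
    linarith
  rcases le_or_gt Q 22 with hQ | hQ
  · rw [Finset.Ioc_eq_empty (by omega), Finset.sum_empty]
    norm_num
  · have h : ∀ Q : ℕ, 22 ≤ Q → ∑ q ∈ Ioc 22 Q, 1 / ((q : ℝ) * √(q : ℝ)) ≤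
        2 * (1 / √(22 : ℝ)) - 2 * (1 / √(Q : ℝ)) := by
      intro Q hQ
      induction Q, hQ using Nat.le_induction with
      | base => simp
      | succ Q hQ ih =>
        rw [Finset.sum_Ioc_succ_top (by omega)]
        have := key (Q + 1) (by omega)
        rw [show Q + 1 - 1 = Q by omega] at this
        linarith
    have h1 := h Q hQ.le
    have h2 : 0 ≤ 2 * (1 / √(Q : ℝ)) := by positivity
    have h3 : 2 * (1 / √(22 : ℝ)) ≤ 1 / 2 := by
      have h4 : (4 : ℝ) ≤ √22 := by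
        rw [show (4 : ℝ) = √16 by
          rw [show (16 : ℝ) = 4 ^ 2 by norm_num, Real.sqrt_sq (by norm_num)]]
        exact Real.sqrt_le_sqrt (by norm_num)
      rw [mul_one_div, div_le_div_iff₀ (by positivity) (by norm_num)]
      linarith
    linarith

private lemma Hc_le_one {Q : ℕ} (m c : ℕ) (hm : 0 < m) {r : Σ _ : ℕ, ℕ} (hr : r ∈ Fa Q) :
    ‖Hc m c r.2 r.1‖ ≤ 1 := by
  obtain ⟨⟨hr0, hrQ⟩, hr1, hr2⟩ := mem_Fa.1 hr
  refine (Hc_bound m c r.2 r.1 hm hr0 hr2).trans ?_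
  have : 1 ≤ Nat.totient r.1 := Nat.totient_pos.2 hr0
  rw [div_le_one (by exact_mod_cast this)]
  exact_mod_cast this

/-- The product of the coefficients on the diagonal. -/
private lemma diag_coeff (m c : Fin 3 → ℕ) (hm : ∀ i, 0 < m i)
    (h19 : ∀ i, ∀ p : ℕ, p.Prime → p ≤ 19 → p ∣ m i) {Q : ℕ} {r : Σ _ : ℕ, ℕ} (hr : r ∈ Fa Q)
    (h1 : r.1 ≠ 1) :
    ‖∏ i, Hc (m i) (c i) r.2 r.1‖ ≤ if 22 < r.1 then
      1 / (Nat.totient r.1 : ℝ) * (1 / ((r.1 : ℝ) * √(r.1 : ℝ))) else 0 := by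
  obtain ⟨⟨hr0, hrQ⟩, hr1, hr2⟩ := mem_Fa.1 hr
  rw [norm_prod, Fin.prod_univ_three]
  by_cases hz : ¬ Nat.Coprime r.1 (m 0) ∨ ¬ Squarefree r.1
  · rw [Hc_zero (m 0) (c 0) r.2 r.1 (hm 0) hr0 hr2 hz]
    simp only [norm_zero, zero_mul]
    split_ifs
    · positivity
    · exact le_rfl
  · push Not at hz
    obtain ⟨hcop, hsq⟩ := hz
    have hbig : ∀ p : ℕ, p.Prime → p ∣ r.1 → 19 < p := by
      intro p hp hpr
      by_contra hle
      have h2 := h19 0 p hp (by omega)
      have h3 : p ∣ Nat.gcd r.1 (m 0) := Nat.dvd_gcd hpr h2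
      rw [hcop] at h3
      exact hp.one_lt.ne' (Nat.dvd_one.1 h3)
    have h22 : 22 < r.1 := by
      have h2 : (r.1).minFac.Prime := Nat.minFac_prime h1
      have h3 : (r.1).minFac ∣ r.1 := Nat.minFac_dvd r.1
      have h4 := hbig _ h2 h3
      have h5 : (r.1).minFac ≤ r.1 := Nat.minFac_le hr0
      by_contra hle
      have h6 : (r.1).minFac ≤ 22 := by omega
      generalize hx : (r.1).minFac = x at h2 h4 h6
      interval_cases x <;> revert h2 <;> norm_num
    rw [if_pos h22]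
    have h6 : Nat.Coprime r.1 6 := by
      rw [show (6 : ℕ) = 2 * 3 by norm_num]
      apply Nat.Coprime.mul_right
      · rw [Nat.coprime_comm, Nat.Prime.coprime_iff_not_dvd Nat.prime_two]
        intro h2
        have := hbig 2 Nat.prime_two h2
        omega
      · rw [Nat.coprime_comm, Nat.Prime.coprime_iff_not_dvd Nat.prime_three]
        intro h2
        have := hbig 3 Nat.prime_three h2
        omega
    have htl := totient_lower r.1 hsq h6
    have hr' : (0 : ℝ) < r.1 := by exact_mod_cast hr0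
    have hphi : (0 : ℝ) < Nat.totient r.1 := by exact_mod_cast Nat.totient_pos.2 hr0
    have h34 : (r.1 : ℝ) * √(r.1 : ℝ) ≤ (Nat.totient r.1 : ℝ) ^ 2 := by
      have e : (r.1 : ℝ) * √(r.1 : ℝ) = ((r.1 : ℝ) ^ (3 / 4 : ℝ)) ^ 2 := by
        rw [← Real.rpow_natCast, ← Real.rpow_mul hr'.le, Real.sqrt_eq_rpow]
        nth_rewrite 1 [← Real.rpow_one (r.1 : ℝ)]
        rw [← Real.rpow_add hr']
        norm_num
      rw [e]
      gcongr
    have hs0 : 0 < (r.1 : ℝ) * √(r.1 : ℝ) := by positivity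
    have b0 := Hc_bound (m 0) (c 0) r.2 r.1 (hm 0) hr0 hr2
    have b1 := Hc_bound (m 1) (c 1) r.2 r.1 (hm 1) hr0 hr2
    have b2 := Hc_bound (m 2) (c 2) r.2 r.1 (hm 2) hr0 hr2
    calc ‖Hc (m 0) (c 0) r.2 r.1‖ * ‖Hc (m 1) (c 1) r.2 r.1‖ * ‖Hc (m 2) (c 2) r.2 r.1‖
        ≤ (1 / (Nat.totient r.1 : ℝ)) * (1 / (Nat.totient r.1 : ℝ)) *
          (1 / (Nat.totient r.1 : ℝ)) := by gcongr
      _ = (1 / (Nat.totient r.1 : ℝ)) * (1 / (Nat.totient r.1 : ℝ) ^ 2) := by
          field_simp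
      _ ≤ _ := by
          gcongr

private lemma card_Fa_le (Q : ℕ) : ((Fa Q).card : ℝ) ≤ (Q : ℝ) ^ 2 := by
  have h : (Fa Q).card ≤ Q * Q := by
    rw [Fa, Finset.card_sigma]
    calc ∑ q ∈ Ioc 0 Q, ((range q).filter fun a => Nat.Coprime a q).card
        ≤ ∑ q ∈ Ioc 0 Q, Q := by
          refine Finset.sum_le_sum fun q hq => ?_
          refine (Finset.card_filter_le _ _).trans ?_
          rw [Finset.card_range]
          exact (Finset.mem_Ioc.1 hq).2
      _ = Q * Q := by simp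
  calc ((Fa Q).card : ℝ) ≤ ((Q * Q : ℕ) : ℝ) := by exact_mod_cast h
    _ = (Q : ℝ) ^ 2 := by push_cast; ring

/-- Sum over the diagonal, without the main term. -/
private lemma diag_sum (m c : Fin 3 → ℕ) (hm : ∀ i, 0 < m i)
    (h19 : ∀ i, ∀ p : ℕ, p.Prime → p ≤ 19 → p ∣ m i) {Q : ℕ} :
    ∑ r ∈ (Fa Q).filter (fun r => r.1 ≠ 1), ‖∏ i, Hc (m i) (c i) r.2 r.1‖ ≤ 1 / 2 := by
  calc ∑ r ∈ (Fa Q).filter (fun r => r.1 ≠ 1), ‖∏ i, Hc (m i) (c i) r.2 r.1‖
      ≤ ∑ r ∈ (Fa Q).filter (fun r => r.1 ≠ 1), (if 22 < r.1 then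
      1 / (Nat.totient r.1 : ℝ) * (1 / ((r.1 : ℝ) * √(r.1 : ℝ))) else 0) := by
        refine Finset.sum_le_sum fun r hr => ?_
        rw [Finset.mem_filter] at hr
        exact diag_coeff m c hm h19 hr.1 hr.2
    _ ≤ ∑ r ∈ Fa Q, (if 22 < r.1 then
      1 / (Nat.totient r.1 : ℝ) * (1 / ((r.1 : ℝ) * √(r.1 : ℝ))) else 0) := by
        refine Finset.sum_le_sum_of_subset_of_nonneg (Finset.filter_subset _ _) fun r _ _ => ?_
        split_ifs
        · positivity
        · exact le_rfl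
    _ = ∑ q ∈ Ioc 0 Q, ∑ a ∈ (range q).filter (fun a => Nat.Coprime a q), (if 22 < q then
      1 / (Nat.totient q : ℝ) * (1 / ((q : ℝ) * √(q : ℝ))) else 0) := by
        rw [Fa, Finset.sum_sigma]
    _ = ∑ q ∈ Ioc 0 Q, (if 22 < q then 1 / ((q : ℝ) * √(q : ℝ)) else 0) := by
        refine Finset.sum_congr rfl fun q hq => ?_
        have hq0 : 0 < q := (Finset.mem_Ioc.1 hq).1
        rw [Finset.sum_const, nsmul_eq_mul]
        have hc : ((range q).filter fun a => Nat.Coprime a q).card = Nat.totient q := by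
          rw [Nat.totient]
          congr 1
          ext a
          simp [Nat.coprime_comm]
        rw [hc]
        split_ifs
        · have : (0 : ℝ) < Nat.totient q := by exact_mod_cast Nat.totient_pos.2 hq0
          field_simp
        · simp
    _ = ∑ q ∈ (Ioc 0 Q).filter (fun q => 22 < q), 1 / ((q : ℝ) * √(q : ℝ)) := by
        rw [Finset.sum_filter]
    _ = ∑ q ∈ Ioc 22 Q, 1 / ((q : ℝ) * √(q : ℝ)) := by
        congr 1
        ext q
        simp only [Finset.mem_filter, Finset.mem_Ioc]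
        omega
    _ ≤ 1 / 2 := tele Q

/-- wt:7: the model count. -/
theorem gm_count (m c : Fin 3 → ℕ) (hm : ∀ i, 0 < m i)
    (h19 : ∀ i, ∀ p : ℕ, p.Prime → p ≤ 19 → p ∣ m i) (n Q : ℕ) (hQ : 0 < Q)
    (lo hi : Fin 3 → ℕ) (hhi : ∀ i, hi i ≤ n) (T : ℕ)
    (hT : T = ((Fintype.piFinset fun i : Fin 3 => Ioc (lo i) (hi i)).filter
      fun x => ∑ i, x i = n).card) :
    (T : ℝ) / 2 - n * Q ^ 8 ≤
      ‖∑ x ∈ (Fintype.piFinset fun i : Fin 3 => Ioc (lo i) (hi i)) with ∑ i, x i = n,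
        ∏ i, gm (m i) (c i) Q (x i)‖ := by
  classical
  set P := (Fintype.piFinset fun i : Fin 3 => Ioc (lo i) (hi i)).filter
    (fun x => ∑ i, x i = n) with hP
  set E : (Fin 3 → Σ _ : ℕ, ℕ) → ℂ := fun r => ∑ x ∈ P, ∏ i, ee ((x i : ℝ) * th (r i)) with hE
  set A : (Fin 3 → Σ _ : ℕ, ℕ) → ℂ := fun r => ∏ i, Hc (m i) (c i) (r i).2 (r i).1 with hA
  set R := Fintype.piFinset (fun _ : Fin 3 => Fa Q) with hR
  have hexp : ∑ x ∈ P, ∏ i, gm (m i) (c i) Q (x i) = ∑ r ∈ R, A r * E r := by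
    have h1 : ∀ x ∈ P, ∏ i, gm (m i) (c i) Q (x i) =
        ∑ r ∈ R, A r * ∏ i, ee ((x i : ℝ) * th (r i)) := by
      intro x _
      unfold gm
      rw [Finset.prod_univ_sum]
      refine Finset.sum_congr rfl fun r _ => ?_
      rw [hA]
      simp only
      rw [← Finset.prod_mul_distrib]
      refine Finset.prod_congr rfl fun i _ => ?_
      congr 2
      rw [th]
      ring
    rw [Finset.sum_congr rfl h1, Finset.sum_comm]
    refine Finset.sum_congr rfl fun r _ => ?_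
    rw [hE, Finset.mul_sum]
  rw [hexp, ← Finset.sum_filter_add_sum_filter_not R (fun r => ∀ i, r i = r 0)]
  -- off diagonal
  have hQ' : (0 : ℝ) < Q := by exact_mod_cast hQ
  have hoff : ‖∑ r ∈ R with ¬ ∀ i, r i = r 0, A r * E r‖ ≤ n * (Q : ℝ) ^ 8 := by
    have hb : ∀ r ∈ R.filter (fun r => ¬ ∀ i, r i = r 0), ‖A r * E r‖ ≤
        n * ((Q : ℝ) ^ 2 / 2) := by
      intro r hr
      rw [Finset.mem_filter, hR, Fintype.mem_piFinset] at hr
      obtain ⟨hr1, hr2⟩ := hr
      push Not at hr2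
      obtain ⟨i, hi'⟩ := hr2
      have hi0 : i ≠ 0 := by
        rintro rfl
        exact hi' rfl
      have h2 : ‖E r‖ ≤ n * ((Q : ℝ) ^ 2 / 2) := off_bound hQ hr1 hi0 hi' n lo hi hhi
      have h3 : ‖A r‖ ≤ 1 := by
        rw [hA]
        simp only
        rw [norm_prod]
        exact Finset.prod_le_one (fun i _ => norm_nonneg _)
          fun i _ => Hc_le_one (m i) (c i) (hm i) (hr1 i)
      rw [norm_mul]
      calc ‖A r‖ * ‖E r‖ ≤ 1 * (n * ((Q : ℝ) ^ 2 / 2)) := by gcongr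
        _ = _ := one_mul _
    refine (norm_sum_le _ _).trans ((Finset.sum_le_sum hb).trans ?_)
    rw [Finset.sum_const, nsmul_eq_mul]
    have hc1 : ((R.filter (fun r => ¬ ∀ i, r i = r 0)).card : ℝ) ≤ ((Q : ℝ) ^ 2) ^ 3 := by
      calc ((R.filter (fun r => ¬ ∀ i, r i = r 0)).card : ℝ) ≤ (R.card : ℝ) := by
            exact_mod_cast Finset.card_filter_le _ _
        _ = ((Fa Q).card : ℝ) ^ 3 := by
            rw [hR, Fintype.card_piFinset]; simp
        _ ≤ _ := by
            have := card_Fa_le Q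
            gcongr
    calc ((R.filter (fun r => ¬ ∀ i, r i = r 0)).card : ℝ) * (n * ((Q : ℝ) ^ 2 / 2))
        ≤ ((Q : ℝ) ^ 2) ^ 3 * (n * ((Q : ℝ) ^ 2 / 2)) := by gcongr
      _ = n * (Q : ℝ) ^ 8 / 2 := by ring
      _ ≤ n * (Q : ℝ) ^ 8 := by
        have : 0 ≤ n * (Q : ℝ) ^ 8 := by positivity
        linarith
  -- diagonal
  have hdiag : ∑ r ∈ R with ∀ i, r i = r 0, A r * E r =
      ∑ s ∈ Fa Q, A (fun _ => s) * E (fun _ => s) := by
    refine Finset.sum_nbij' (fun r => r 0) (fun s _ => s) ?_ ?_ ?_ ?_ ?_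
    · intro r hr
      rw [Finset.mem_filter, hR, Fintype.mem_piFinset] at hr
      exact hr.1 0
    · intro s hs
      rw [Finset.mem_filter, hR, Fintype.mem_piFinset]
      exact ⟨fun _ => hs, fun _ => rfl⟩
    · intro r hr
      rw [Finset.mem_filter] at hr
      funext i
      exact (hr.2 i).symm
    · intro s _
      rfl
    · intro r hr
      rw [Finset.mem_filter] at hr
      have : r = fun _ => r 0 := funext hr.2
      rw [← this]
  have hEd : ∀ s : Σ _ : ℕ, ℕ, E (fun _ => s) = T * ee ((n : ℝ) * th s) := by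
    intro s
    rw [hE]
    simp only
    have h1 : ∀ x ∈ P, ∏ i, ee ((x i : ℝ) * th s) = ee ((n : ℝ) * th s) := by
      intro x hx
      rw [hP, Finset.mem_filter] at hx
      rw [← ee_nsum, ← Finset.sum_mul]
      congr 2
      exact_mod_cast hx.2
    rw [Finset.sum_congr rfl h1, Finset.sum_const, ← hT, nsmul_eq_mul]
  have hsplit : ∑ s ∈ Fa Q, A (fun _ => s) * E (fun _ => s) = T +
      ∑ s ∈ (Fa Q).filter (fun s => s.1 ≠ 1), A (fun _ => s) * E (fun _ => s) := by
    rw [← Finset.sum_filter_add_sum_filter_not (Fa Q) (fun s => s.1 = 1)]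
    congr 1
    have h1 : (Fa Q).filter (fun s => s.1 = 1) = {⟨1, 0⟩} := by
      ext s
      rw [Finset.mem_filter, mem_Fa, Finset.mem_singleton]
      constructor
      · rintro ⟨⟨_, h2, _⟩, h4⟩
        obtain ⟨s1, s2⟩ := s
        simp only at h2 h4
        subst h4
        have : s2 = 0 := by omega
        subst this
        rfl
      · rintro rfl
        exact ⟨⟨⟨by norm_num, hQ⟩, by norm_num, by simp⟩, rfl⟩
    rw [h1, Finset.sum_singleton, hEd]
    have h2 : A (fun _ => (⟨1, 0⟩ : Σ _ : ℕ, ℕ)) = 1 := by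
      rw [hA]
      simp only
      exact Finset.prod_eq_one fun i _ => Hc_one (m i) (c i) (hm i)
    rw [h2]
    simp [th, h85_ee_zero]
  have hrest : ‖∑ s ∈ (Fa Q).filter (fun s => s.1 ≠ 1), A (fun _ => s) * E (fun _ => s)‖ ≤
      T / 2 := by
    refine (norm_sum_le _ _).trans ?_
    have h1 : ∀ s ∈ (Fa Q).filter (fun s => s.1 ≠ 1), ‖A (fun _ => s) * E (fun _ => s)‖ =
        ‖∏ i, Hc (m i) (c i) s.2 s.1‖ * T := by
      intro s _
      rw [norm_mul, hEd, norm_mul, h85_norm_ee, mul_one, Complex.norm_natCast]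
    rw [Finset.sum_congr rfl h1, ← Finset.sum_mul]
    have h2 := diag_sum m c hm h19 (Q := Q)
    have hT0 : (0 : ℝ) ≤ T := Nat.cast_nonneg T
    nlinarith
  rw [hdiag, hsplit]
  set D := ∑ s ∈ (Fa Q).filter (fun s => s.1 ≠ 1), A (fun _ => s) * E (fun _ => s) with hD
  set O := ∑ r ∈ R with ¬ ∀ i, r i = r 0, A r * E r with hO
  have h1 : ‖(T : ℂ)‖ ≤ ‖(T : ℂ) + D + O‖ + ‖D‖ + ‖O‖ := by
    calc ‖(T : ℂ)‖ = ‖((T : ℂ) + D + O) - D - O‖ := by ring_nf
      _ ≤ ‖((T : ℂ) + D + O) - D‖ + ‖O‖ := norm_sub_le _ _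
      _ ≤ _ := by
        have := norm_sub_le ((T : ℂ) + D + O) D
        linarith
  rw [Complex.norm_natCast] at h1
  linarith

end Pool.Agent.helper74.TG
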